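import Mathlib
import Pool.Agent.Q84.RZ6

/-! MP_ab3f56 (Q1): a Rajchman probability measure whose spectrum on `H¹₀` is the closed disc. -/

set_option autoImplicit false
open MeasureTheory AddCircle Filter Topology

namespace Pool.Agent.Results.MP_ab3f56_an.DiscSpectrum

section defs

variable {T : ℝ} [hT : Fact (0 < T)]

/-- the space `L¹` of the circle for normalised Lebesgue measure, with its norm -/
abbrev L1 (T : ℝ) [hT : Fact (0 < T)] : Type := Lp ℂ 1 (haarAddCircle (T := T))

/-- `f̂(n) = 0` for all `n ≤ 0` -/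
def InH10 (f : L1 T) : Prop := ∀ n : ℤ, n ≤ 0 → fourierCoeff f n = 0

theorem InH10.add {f g : L1 T} (hf : InH10 f) (hg : InH10 g) : InH10 (f + g) :=
  (Q84.RZ.H10 T).add_mem hf hg

theorem InH10.zero : InH10 (0 : L1 T) := (Q84.RZ.H10 T).zero_mem

theorem InH10.smul (c : ℂ) {f : L1 T} (hf : InH10 f) : InH10 (c • f) :=
  (Q84.RZ.H10 T).smul_mem c hf

/-- the subspace `H¹₀` of `L¹`: functions with `f̂(n) = 0` for all `n ≤ 0` -/
noncomputable def H10 (T : ℝ) [hT : Fact (0 < T)] : Submodule ℂ (L1 T) where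
  carrier := {f | InH10 f}
  add_mem' := InH10.add
  zero_mem' := InH10.zero
  smul_mem' c _ := InH10.smul c

/-- `μ̂(n) → 0` as `|n| → ∞` -/
def IsRajchman (μ : Measure (AddCircle T)) : Prop :=
  Tendsto (fun n : ℤ => ∫ t, fourier (-n) t ∂μ) cofinite (𝓝 0)

/-- `g` is the convolution `μ * f` -/
def IsConv (μ : Measure (AddCircle T)) (f g : L1 T) : Prop :=
  g =ᵐ[haarAddCircle] fun x => ∫ y, f (x - y) ∂μ

end defs

/-- the spectrum of the bounded operator `A` on the Banach space `X` is the closed unit disc -/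
def HasDiscSpectrum {X : Type*} [NormedAddCommGroup X] [NormedSpace ℂ X] (A : X →L[ℂ] X) : Prop :=
  spectrum ℂ A = Metric.closedBall 0 1


/-- the bounded operator of `V` given by the relation `R` exists and has disc spectrum -/
def DiscSpectrumOn {X : Type*} [NormedAddCommGroup X] [NormedSpace ℂ X] (V : Submodule ℂ X)
    (R : X → X → Prop) : Prop :=
  ∃ A : V →L[ℂ] V, (∀ f : V, R f (A f)) ∧ HasDiscSpectrum A

instance : Fact (0 < 2 * Real.pi) := ⟨Real.two_pi_pos⟩

/-- There is a Rajchman probability measure `μ` on the circle `ℝ/2πℤ` such that the spectrum of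
the convolution operator `T_μ` on `H¹₀` is the closed unit disc. -/
theorem result : ∃ μ : Measure (AddCircle (2 * Real.pi)), IsProbabilityMeasure μ ∧ IsRajchman μ ∧
    DiscSpectrumOn (H10 (2 * Real.pi)) (IsConv μ) := by
  obtain ⟨μ, hμ, hraj, hspec⟩ := Q84.RZ.main (2 * Real.pi)
  refine ⟨μ, hμ, ?_, Q84.RZ.Tm μ, ?_, hspec⟩
  · exact hraj.comp (neg_injective (G := ℤ)).tendsto_cofinite
  · intro f
    exact Q84.RZ.cvL_ae μ (f : Lp ℂ 1 (haarAddCircle : Measure (AddCircle (2 * Real.pi))))

end Pool.Agent.Results.MP_ab3f56_an.DiscSpectrum
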